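import Mathlib
import Pool.Agent.R361.Aniso4

/-!
# Quotients of Dedekind zeta functions at all points: non-solvable groups `SL₂(2^k)`

`Pool.Agent.H541R3.ART.ArtinData G s₀` is a family of functions with the formal properties of the
Artin L-functions of a Galois extension `E/K` with group `G` near a point `s₀ ≠ 1`: functions
`L χ` for the irreducible characters `χ` of `G`, meromorphic and not identically zero near `s₀`
(Brauer), and `Lin H ψ` for the linear characters `ψ` of the subgroups `H`, without pole at `s₀`
(Artin reciprocity and Hecke), such that `Lin H ψ` is the product of the `L χ ^ ⟨χ|_H, ψ⟩`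
(induction). In particular `Lin H 1` stands for the Dedekind zeta function of the fixed field of
`H`.

`Pool.Agent.R361.Aniso.nf c v = v₀² + v₀ v₁ + c v₁²` is a binary quadratic form; over a finite field
`F` with `q = 2^k` elements it is anisotropic if `z² + z + c ≠ 0` for all `z`, and then its stabilizer
in `SL₂(F)` is a dihedral group of order `2 (q + 1)`, of index `q (q - 1) / 2`.

`Pool.Agent.R361.Aniso.Step K H` says that `H ≤ K` and that one of the following holds:
(1) `H` is normal in `K`;
(2) `H` contains a normal subgroup `N` of `K` with `K / N` solvable;
(3) for some finite field `F` of characteristic two there is a surjective homomorphism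
`π : K → SL₂(F)` such that `H` is the preimage of the stabilizer of an anisotropic form `nf c`.
-/

set_option autoImplicit false

open Pool.Agent.H541R3.ART Pool.Agent.R361.Aniso

/-- Let `G` be the Galois group of `E/K` and `U ≤ M ≤ G`. There is no restriction on `s₀` and on the
order of the zeros at `s₀`. If `M` and `U` are connected by a chain of subgroups every step of which
is of the kind (1), (2) or (3), then the order at `s₀` of `ζ_{E^M}` is at most the order of
`ζ_{E^U}`: the quotient `ζ_{E^U} / ζ_{E^M}` has no pole at `s₀`. More generally this holds for the
L-functions of a linear character `ρ` of `M` and of its restriction to `U`.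

For example (steps (3) and (2); `Pool.Agent.R361.Aniso.chain_aniso`) this applies if `M` has a
homomorphism `π` onto `SL₂(F)`, `F` a finite field of characteristic two, with solvable kernel, and
`π(U)` preserves an anisotropic quadratic form. -/
theorem Pool.Agent.Results.MP_9fc8a5_nt.AnisotropicDihedral.result
    (G : Type) [Group G] [Finite G] (s₀ : ℂ) (A : ArtinData G s₀) (M U : Subgroup G)
    (hUM : U ≤ M) (h : Relation.ReflTransGen Step M U) (ρ : M →* ℂˣ) :
    meromorphicOrderAt (A.Lin M ρ) s₀
      ≤ meromorphicOrderAt (A.Lin U (ρ.comp (Subgroup.inclusion hUM))) s₀ :=
  inc_order A hUM (chain_inc A.isHeilbronn h) ρ
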