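import Mathlib
import Pool.Agent.R389.DedA

/-!
# Quotients of Dedekind zeta functions when the new zeros are abelian and at most double

`Pool.Agent.H541R3.ART.ArtinData G s₀` is a family of functions with the formal properties of the
Artin L-functions of a Galois extension `E/K` with group `G` near a point `s₀ ≠ 1`: functions
`L χ` for the irreducible characters `χ` of `G`, meromorphic and not identically zero near `s₀`
(Brauer), and `Lin H ψ` for the linear characters `ψ` of the subgroups `H`, without pole at `s₀`
(Artin reciprocity and Hecke), such that `Lin H ψ` is the product of the `L χ ^ ⟨χ|_H, ψ⟩`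
(induction). In particular `Lin H 1` stands for the Dedekind zeta function of the fixed field of
`H`, and `Lin H ψ` for a Hecke L-function of this field.

`Pool.Agent.R389.stb μ` is the stabilizer of the linear character `μ` of the normal subgroup `N`
under the action of `G` by conjugation.
-/

set_option autoImplicit false

open Pool.Agent.H541R3.ART Pool.Agent.R389

/-- Let `G` be the Galois group of `E/K`, let `N` be a normal subgroup of `G`, `F = E ^ N`, and let
`F' = E ^ [N, N]` be the largest abelian extension of `F` in `E`. Suppose that `ζ_E` and `ζ_{F'}` have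
the same order at `s₀`, or that `N` is solvable and that the order of `ζ_E` at `s₀` is smaller than the
order of `ζ_F` plus every prime divisor of `|N| = [E : F]`.

Let `U ≤ M ≤ G` and let `ρ` be a linear character of `M`. Suppose that for each linear character `μ`
of `N` which agrees with `ρ` on `M ∩ N` one of the following conditions holds.
(a) The L-function of `μ` over `F` has at `s₀` at most a double zero.
(b) `M_μ / (M_μ ∩ N)` is solvable, where `M_μ` is the stabilizer of `μ` in `M`.
(c) `μ = 1` and the assertion is true over `F`: for every linear character `ρ'` of `M N` which extends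
`ρ` and is trivial on `N`, the order of the L-function of `ρ'` is at most that of `ρ'|_{U N}`.

Then the order at `s₀` of the L-function of `ρ` over `E ^ M` is at most the order of the L-function of
`ρ|_U` over `E ^ U`. For `ρ = 1`: `ζ_{E ^ U} / ζ_{E ^ M}` has no pole at `s₀`. -/
theorem Pool.Agent.Results.MP_9fc8a5_nt.DoubleAbelianZeros.result
    (G : Type) [Group G] [Finite G] (s₀ : ℂ) (A : ArtinData G s₀) (N : Subgroup G) [N.Normal]
    (hN : meromorphicOrderAt (A.Lin ⊥ 1) s₀ = meromorphicOrderAt (A.Lin ⁅N, N⁆ 1) s₀ ∨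
      (Group.IsSolvable N ∧ ∀ p : ℕ, p.Prime → p ∣ Nat.card N →
        meromorphicOrderAt (A.Lin ⊥ 1) s₀ < meromorphicOrderAt (A.Lin N 1) s₀ + p))
    (U M : Subgroup G) (hUM : U ≤ M) (ρ : M →* ℂˣ)
    (h : ∀ μ : N →* ℂˣ, (∀ (x : G) (hx : x ∈ M) (hn : x ∈ N), ρ ⟨x, hx⟩ = μ ⟨x, hn⟩) →
      meromorphicOrderAt (A.Lin N μ) s₀ ≤ 2 ∨
      Group.IsSolvable ((M ⊓ stb μ : Subgroup G) ⧸ N.subgroupOf (M ⊓ stb μ)) ∨
      (μ = 1 ∧ ∀ ρ' : (M ⊔ N : Subgroup G) →* ℂˣ,
        (∀ x : (M ⊔ N : Subgroup G), (x : G) ∈ N → ρ' x = 1) →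
        ρ'.comp (Subgroup.inclusion le_sup_left) = ρ →
        meromorphicOrderAt (A.Lin (M ⊔ N) ρ') s₀ ≤ meromorphicOrderAt (A.Lin (U ⊔ N)
          (ρ'.comp (Subgroup.inclusion (sup_le_sup_right hUM N)))) s₀)) :
    meromorphicOrderAt (A.Lin M ρ) s₀
      ≤ meromorphicOrderAt (A.Lin U (ρ.comp (Subgroup.inclusion hUM))) s₀ :=
  ded_double A N hN U M hUM ρ fun μ hμ => by
    rcases h μ hμ with h1 | h1 | h1
    · exact Or.inl h1
    · obtain ⟨d, -, hd⟩ := exists_ord A N μ
      exact Or.inr (Or.inl ⟨d, hd, Pool.Agent.TH820.builtSC_solvable h1⟩)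
    · exact Or.inr (Or.inr h1)
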