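import Pool.Agent.R409.RI.Ded

/-!
# Quotients of Dedekind zeta functions, read off prime ideals

For a number field `K`, a complex number `s₀`, `γ > π/2` and `θ > max(0, 1 - Re s₀)` let

`S_K(T) = ∑ κ_γ(k log N𝔭 / T) N𝔭^{-k s₀} / k`, `κ_γ(u) = e^{iγu} / Γ(1 + u)`,

be the finite sum over the prime ideals `𝔭` of `K` and the `k ≥ 1` with `N𝔭^k ≤ exp (exp (θ T))`. We prove
that at every point `s₀`, zeros included,

`S_K(T) = c - m (log T - Λ_γ) + O(1/T)`,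

`m` the order and `e^c` the leading coefficient of `ζ_K` at `s₀`. It follows that for every extension
`L/K` of number fields the quotient `ζ_L(s) / ζ_K(s)` is entire if and only if for every `s₀` there are
arbitrarily large `T` with `Re (S_L(T) - S_K(T)) ≤ (1/2) log T`.
-/

set_option autoImplicit false

namespace Pool.Agent.Results.MP_9fc8a5_nt.PrimeIdealCriterion

open NumberField IsDedekindDomain Filter Topology

section defs

/-- `Z` is the meromorphic continuation of the Dedekind zeta function of `K`. -/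
def IsZeta (K : Type) [Field K] [NumberField K] (Z : ℂ → ℂ) : Prop :=
  (∀ z, z ≠ 1 → AnalyticAt ℂ Z z) ∧ MeromorphicAt Z 1 ∧
    ∀ s : ℂ, 1 < s.re → Z s = dedekindZeta K s

/-- The quotient `ζ_L(s) / ζ_K(s)` extends to an entire function. -/
def QuotientEntire (K L : Type) [Field K] [Field L] [NumberField K] [NumberField L] : Prop :=
  ∃ g : ℂ → ℂ, Differentiable ℂ g ∧ ∀ s : ℂ, 1 < s.re →
    g s = LSeries (fun n : ℕ => ((Nat.card {I : Ideal (𝓞 L) // Ideal.absNorm I = n} : ℕ) : ℂ)) s /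
      LSeries (fun n : ℕ => ((Nat.card {I : Ideal (𝓞 K) // Ideal.absNorm I = n} : ℕ) : ℂ)) s

/-- The weight `κ_γ(u) = e^{iγu} / Γ(1 + u)`. -/
noncomputable def weight (γ u : ℝ) : ℂ :=
  Complex.exp (Complex.I * (γ * u)) / Complex.Gamma (1 + u)

/-- `S_K(T) = ∑ κ_γ(k log N𝔭 / T) N𝔭^{-k s₀} / k`, over the `𝔭` and `k ≥ 1` with
`N𝔭^k ≤ exp (exp (θ T))`. -/
noncomputable def primeSum (K : Type) [Field K] [NumberField K] (s₀ : ℂ) (γ θ T : ℝ) : ℂ :=
  ∑ᶠ x ∈ {x : HeightOneSpectrum (𝓞 K) × ℕ | 1 ≤ x.2 ∧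
      (Ideal.absNorm x.1.asIdeal : ℝ) ^ x.2 ≤ Real.exp (Real.exp (θ * T))},
    weight γ (x.2 * Real.log (Ideal.absNorm x.1.asIdeal) / T) *
      ((Ideal.absNorm x.1.asIdeal : ℂ) ^ (-s₀)) ^ x.2 / x.2

/-- `Λ_γ = ∫_0^∞ (e^{-t} - e^{iγt} / Γ(1 + t)) dt / t`. -/
noncomputable def lam (γ : ℝ) : ℂ :=
  ∫ t in Set.Ioi (0 : ℝ), (Real.exp (-t) - weight γ t) / t

end defs

section proofs

open Pool.Agent.R409.RC Pool.Agent.R409.RF Pool.Agent.R409.RG Pool.Agent.R409.RI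

theorem weight_eq' {γ u : ℝ} : weight γ u = Pool.Agent.W187.S2.kk γ u :=
  Pool.Agent.R409.RH.weight_eq

theorem lam_eq' (γ : ℝ) : lam γ = Pool.Agent.W187.UR.Lam γ :=
  Pool.Agent.R409.RH.lam_eq γ

variable {K : Type} [Field K] [NumberField K] {Z : ℂ → ℂ}

theorem IsZeta.mero (h : IsZeta K Z) (z : ℂ) : MeromorphicAt Z z := by
  by_cases hz : z = 1
  · rw [hz]
    exact h.2.1
  · exact (h.1 z hz).meromorphicAt

theorem law_of (h : IsZeta K Z) (s₀ : ℂ) :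
    ∃ (m : ℤ) (c : ℂ), meromorphicOrderAt Z s₀ = m ∧
      Complex.exp c = meromorphicTrailingCoeffAt Z s₀ ∧
      ∀ γ θ : ℝ, Real.pi / 2 < γ → 1 - s₀.re < θ → 0 < θ →
        ∃ B T₀ : ℝ, 0 ≤ B ∧ 1 ≤ T₀ ∧ ∀ T : ℝ, T₀ ≤ T →
          ‖primeSum K s₀ γ θ T - (c - m * (Real.log T - lam γ))‖ ≤ B / T := by
  obtain ⟨m, c, hm, hc, hlaw⟩ := law_ded K h.mero h.2.2 s₀
  refine ⟨m, c, hm, hc, fun γ θ hγ hθ hθ0 => ?_⟩
  have h1 := hlaw γ θ hγ hθ hθ0
  rw [← lam_eq'] at h1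
  have h2 : (fun T : ℝ => ∑ᶠ x ∈ {x : HeightOneSpectrum (𝓞 K) × ℕ | 1 ≤ x.2 ∧
      (Ideal.absNorm x.1.asIdeal : ℝ) ^ x.2 ≤ Real.exp (Real.exp (θ * T))},
        zterm K s₀ γ T x.1 x.2) = primeSum K s₀ γ θ := by
    funext T
    unfold primeSum zterm
    simp only [weight_eq']
  rw [h2] at h1
  exact h1

theorem zeta_ev (h : IsZeta K Z) (s₀ : ℂ) : ∀ᶠ z in 𝓝[≠] s₀, Z z ≠ 0 := by
  refine (meromorphicOrderAt_ne_top_iff_eventually_ne_zero (h.mero s₀)).1 ?_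
  obtain ⟨m, c, hm, -⟩ := law_of h s₀
  rw [hm]
  exact WithTop.coe_ne_top

theorem ne_zero_right (h : IsZeta K Z) {s : ℂ} (hs : 1 < s.re) : Z s ≠ 0 := by
  rw [h.2.2 s hs]
  have h1 := (Pool.Agent.Y773.hasSum_log (Pool.Agent.Y772.NZ.one_norm K) hs).cexp
  rw [← Pool.Agent.Y772.NZ.LI_one K hs,
    Pool.Agent.Y772.DK.LI_eq_exp _ (Pool.Agent.Y772.NZ.one_norm K) hs]
  exact Complex.exp_ne_zero _

variable {L : Type} [Field L] [NumberField L] {W : ℂ → ℂ}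

theorem entire_iff (hK : IsZeta K Z) (hL : IsZeta L W) :
    QuotientEntire K L ↔ ∀ s₀ : ℂ, 0 ≤ meromorphicOrderAt (fun s => W s / Z s) s₀ := by
  have hmq : ∀ z, MeromorphicAt (fun s => W s / Z s) z := fun z => (hL.mero z).div (hK.mero z)
  have hquot : QuotientEntire K L ↔ ∃ g : ℂ → ℂ, Differentiable ℂ g ∧
      ∀ s : ℂ, 1 < s.re → g s = W s / Z s := by
    unfold QuotientEntire
    refine exists_congr fun g => and_congr_right fun _ => forall_congr' fun s =>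
      forall_congr' fun hs => ?_
    rw [hK.2.2 s hs, hL.2.2 s hs]
    rfl
  rw [hquot]
  constructor
  · rintro ⟨g, hg, hgq⟩ s₀
    have hopen : IsOpen ({1}ᶜ : Set ℂ) := isOpen_compl_singleton
    have hconn : IsPreconnected ({1}ᶜ : Set ℂ) :=
      (isConnected_compl_singleton_of_one_lt_rank (by
        rw [Complex.rank_real_complex]
        norm_num) (1 : ℂ)).isPreconnected
    have h1 : AnalyticOnNhd ℂ W {1}ᶜ := fun z hz => hL.1 z hz
    have h2 : AnalyticOnNhd ℂ (fun z => g z * Z z) {1}ᶜ := fun z hz =>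
      (hg.analyticAt z).mul (hK.1 z hz)
    have h3 : Set.EqOn W (fun z => g z * Z z) {1}ᶜ := by
      refine h1.eqOn_of_preconnected_of_eventuallyEq h2 hconn (z₀ := 2) (by
        simp) ?_
      have hU : {z : ℂ | 1 < z.re} ∈ 𝓝 (2 : ℂ) :=
        (isOpen_lt continuous_const Complex.continuous_re).mem_nhds (by simp)
      filter_upwards [hU] with z hz
      rw [hgq z hz, div_mul_cancel₀]
      exact ne_zero_right hK hz
    have h4 : (fun s => W s / Z s) =ᶠ[𝓝[≠] s₀] g := by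
      have hone : ∀ᶠ z in 𝓝[≠] s₀, z ≠ 1 := by
        by_cases hs : s₀ = 1
        · rw [hs]
          exact self_mem_nhdsWithin
        · exact mem_nhdsWithin_of_mem_nhds (hopen.mem_nhds hs)
      filter_upwards [zeta_ev hK s₀, hone] with z hz hz1
      rw [h3 hz1, mul_div_assoc, div_self hz, mul_one]
    rw [meromorphicOrderAt_congr h4]
    exact (hg.analyticAt s₀).meromorphicOrderAt_nonneg
  · intro h
    have hM : MeromorphicOn (fun s => W s / Z s) Set.univ := fun z _ => hmq z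
    set g := toMeromorphicNFOn (fun s => W s / Z s) Set.univ with hg
    have hgan : ∀ z, AnalyticAt ℂ g z := by
      intro z
      have h1 : MeromorphicNFAt g z := meromorphicNFOn_toMeromorphicNFOn _ _ (Set.mem_univ z)
      refine h1.meromorphicOrderAt_nonneg_iff_analyticAt.1 ?_
      rw [hg, meromorphicOrderAt_toMeromorphicNFOn hM (Set.mem_univ z)]
      exact h z
    refine ⟨g, fun z => (hgan z).differentiableAt, fun s hs => ?_⟩
    have hs1 : s ≠ 1 := by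
      rintro rfl
      simp at hs
    have h2 : Tendsto g (𝓝[≠] s) (𝓝 (g s)) :=
      (hgan s).continuousAt.tendsto.mono_left nhdsWithin_le_nhds
    have h3 : Tendsto (fun z => W z / Z z) (𝓝[≠] s) (𝓝 (W s / Z s)) :=
      (((hL.1 s hs1).continuousAt.div (hK.1 s hs1).continuousAt
        (ne_zero_right hK hs)).tendsto).mono_left nhdsWithin_le_nhds
    exact tendsto_nhds_unique h2
      (h3.congr' (hM.toMeromorphicNFOn_eq_self_on_nhdsNE (Set.mem_univ s)).symm)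

end proofs

/-- **Quotients of Dedekind zeta functions and prime ideals.** Let `K`, `L` be number fields, `Z`, `W` the
meromorphic continuations of `ζ_K` and `ζ_L` (Hecke).

1. For every `s₀` there are `m`, `c` such that `S_K(T) = c - m (log T - Λ_γ) + O(1/T)` for all `γ > π/2`,
`θ > max(0, 1 - Re s₀)`, where `m` is the order and `e^c` the leading coefficient of `ζ_K` at `s₀`.

2. For every `s₀`, `γ > π/2` and `θ > max(0, 1 - Re s₀)` the quotient
`- Re (S_L(T) - S_K(T)) / log T` tends to the order of `ζ_L / ζ_K` at `s₀`.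

3. `ζ_L / ζ_K` is entire if and only if for every `s₀` there are arbitrarily large `T` with
`Re (S_L(T) - S_K(T)) ≤ (1/2) log T`, where `γ > π/2` is fixed and `θ = θ(s₀) > max(0, 1 - Re s₀)`. -/
theorem result (K L : Type) [Field K] [Field L] [NumberField K] [NumberField L] [Algebra K L]
    (Z W : ℂ → ℂ) (hK : IsZeta K Z) (hL : IsZeta L W) :
    (∀ s₀ : ℂ, ∃ (m : ℤ) (c : ℂ), meromorphicOrderAt Z s₀ = m ∧
      Complex.exp c = meromorphicTrailingCoeffAt Z s₀ ∧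
      ∀ γ θ : ℝ, Real.pi / 2 < γ → 1 - s₀.re < θ → 0 < θ →
        ∃ B T₀ : ℝ, ∀ T : ℝ, T₀ ≤ T →
          ‖primeSum K s₀ γ θ T - (c - m * (Real.log T - lam γ))‖ ≤ B / T) ∧
    (∀ s₀ : ℂ, ∃ m : ℤ, meromorphicOrderAt (fun s => W s / Z s) s₀ = m ∧
      ∀ γ θ : ℝ, Real.pi / 2 < γ → 1 - s₀.re < θ → 0 < θ →
        Tendsto (fun T : ℝ => -(primeSum L s₀ γ θ T - primeSum K s₀ γ θ T).re / Real.log T)
          atTop (𝓝 (m : ℝ))) ∧
    ∀ (γ : ℝ) (θ : ℂ → ℝ), Real.pi / 2 < γ → (∀ s₀, 1 - s₀.re < θ s₀ ∧ 0 < θ s₀) →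
      (QuotientEntire K L ↔ ∀ (s₀ : ℂ) (T₀ : ℝ), ∃ T : ℝ, T₀ ≤ T ∧
        (primeSum L s₀ γ (θ s₀) T - primeSum K s₀ γ (θ s₀) T).re ≤ 1 / 2 * Real.log T) := by
  have hord : ∀ s₀ : ℂ, ∃ m : ℤ, meromorphicOrderAt (fun s => W s / Z s) s₀ = m ∧
      ∀ γ θ : ℝ, Real.pi / 2 < γ → 1 - s₀.re < θ → 0 < θ →
        Tendsto (fun T : ℝ => (primeSum L s₀ γ θ T - primeSum K s₀ γ θ T).re / Real.log T ^ 1)
          atTop (𝓝 ((-m : ℤ) : ℝ)) := by
    intro s₀
    obtain ⟨m₁, c₁, hm₁, -, hlaw₁⟩ := law_of hK s₀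
    obtain ⟨m₂, c₂, hm₂, -, hlaw₂⟩ := law_of hL s₀
    refine ⟨m₂ - m₁, ?_, fun γ θ hγ hθ hθ0 => ?_⟩
    · have h1 : (fun s => W s / Z s) = W / Z := rfl
      rw [h1, meromorphicOrderAt_div (hL.mero s₀) (hK.mero s₀), hm₁, hm₂]
      exact (WithTop.LinearOrderedAddCommGroup.coe_sub m₂ m₁).symm
    · obtain ⟨B₁, T₁, -, -, hT₁⟩ := hlaw₁ γ θ hγ hθ hθ0
      obtain ⟨B₂, T₂, -, -, hT₂⟩ := hlaw₂ γ θ hγ hθ hθ0
      have h1 := (Pool.Agent.R409.RH.tend_div hT₂).sub (Pool.Agent.R409.RH.tend_div hT₁)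
      have h2 := (Complex.continuous_re.tendsto _).comp h1
      have h3 : (-(m₂ : ℂ) - -(m₁ : ℂ)).re = ((-(m₂ - m₁) : ℤ) : ℝ) := by
        push_cast
        simp
        ring
      rw [h3] at h2
      refine h2.congr fun T => ?_
      simp only [Function.comp_apply, pow_one]
      rw [← sub_div, Complex.div_ofReal_re]
  refine ⟨fun s₀ => ?_, fun s₀ => ?_, fun γ θ hγ hθ => ?_⟩
  · obtain ⟨m, c, hm, hc, hlaw⟩ := law_of hK s₀
    refine ⟨m, c, hm, hc, fun γ θ hγ hθ hθ0 => ?_⟩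
    obtain ⟨B, T₀, -, -, hT⟩ := hlaw γ θ hγ hθ hθ0
    exact ⟨B, T₀, hT⟩
  · obtain ⟨m, hm, hlim⟩ := hord s₀
    refine ⟨m, hm, fun γ θ hγ hθ hθ0 => ?_⟩
    have h1 := (hlim γ θ hγ hθ hθ0).neg
    push_cast at h1
    rw [neg_neg] at h1
    refine h1.congr fun T => ?_
    rw [pow_one]
    ring
  · rw [entire_iff hK hL]
    refine forall_congr' fun s₀ => ?_
    obtain ⟨m, hm, hlim⟩ := hord s₀
    have h1 := Pool.Agent.R409.RH.thr_iff (hlim γ (θ s₀) hγ (hθ s₀).1 (hθ s₀).2) (a := 1 / 2)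
      (b := 0) (by norm_num)
    simp only [pow_one] at h1
    rw [h1, hm]
    have h2 : (0 : WithTop ℤ) ≤ (m : WithTop ℤ) ↔ 0 ≤ m := by
      have : (0 : WithTop ℤ) = ((0 : ℤ) : WithTop ℤ) := rfl
      rw [this, WithTop.coe_le_coe]
    rw [h2]
    omega

end Pool.Agent.Results.MP_9fc8a5_nt.PrimeIdealCriterion
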