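import Mathlib
import Pool.Agent.R389.SLq

/-!
# Quotients of Dedekind zeta functions at all points: composition factors `SL₂(2^k)`

`Pool.Agent.H541R3.ART.ArtinData G s₀` is a family of functions with the formal properties of the
Artin L-functions of a Galois extension `E/K` with group `G` near a point `s₀ ≠ 1`: functions
`L χ` for the irreducible characters `χ` of `G`, meromorphic and not identically zero near `s₀`
(Brauer), and `Lin H ψ` for the linear characters `ψ` of the subgroups `H`, without pole at `s₀`
(Artin reciprocity and Hecke), such that `Lin H ψ` is the product of the `L χ ^ ⟨χ|_H, ψ⟩`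
(induction). In particular `Lin H 1` stands for the Dedekind zeta function of the fixed field of
`H`.
-/

set_option autoImplicit false

open Pool.Agent.H541R3.ART

/-- Let `G` be the Galois group of `E/K`, let `N ≤ M` be subgroups of `G`, `N` normal in `M`, and
let `Q = M / N` be the Galois group of `E^N / E^M`. Suppose that every composition factor of `Q` (every
simple quotient `Y / Z` of a subnormal subgroup `Y` of `Q`) is abelian or isomorphic to `SL₂(F)` for
a finite field `F` of characteristic two (for instance to `A₅ = SL₂(4)`).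

Then `Q` has a solvable subgroup `U` with the following property. For all subgroups `V` with
`N ≤ V ≤ M`, `V / N ≤ U`, all points `s₀`, all functions with the formal properties of the Artin
L-functions of `E/K` near `s₀`, and all linear characters `ρ` of `M`, the order at `s₀` of the L-function
of `ρ` over `E^M` is at most the order of the L-function of `ρ|_V` over `E^V`; for `ρ = 1`: the quotient
`ζ_{E^V} / ζ_{E^M}` has no pole at `s₀`. The zeros may have any order.

The subgroup `U` is large: there are a number `s` and numbers `k > 1` (the elements of the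
multiset `ks`) such that `Q` has the order `s · ∏ (4^k - 1) 2^k` (where `(4^k - 1) 2^k` is the order
of `SL₂(2^k)`) and `U` has at most the index `∏ 2^v(k) 2^(k-1) (2^k - 1)` in `Q`, that is at least the
order `s · ∏ 2 (2^k + 1) / 2^v(k)`, where `2^v(k)` is the exact power of two dividing `k`. -/
theorem Pool.Agent.Results.MP_9fc8a5_nt.SL2Factors.result
    (G : Type) [Group G] [Finite G] (M N : Subgroup G) [(N.subgroupOf M).Normal]
    (h : ∀ Y : Subgroup (M ⧸ N.subgroupOf M), Y.IsSubnormal → ∀ (Z : Subgroup Y) (_ : Z.Normal),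
      IsSimpleGroup (Y ⧸ Z) → (∀ a b : Y ⧸ Z, a * b = b * a) ∨
        ∃ (F : Type) (_ : Field F) (_ : Finite F) (_ : CharP F 2),
          Nonempty ((Y ⧸ Z) ≃* Matrix.SpecialLinearGroup (Fin 2) F)) :
    ∃ (U : Subgroup (M ⧸ N.subgroupOf M)) (s : ℕ) (ks : Multiset ℕ),
      Group.IsSolvable U ∧ (∀ k ∈ ks, 1 < k) ∧
      Nat.card (M ⧸ N.subgroupOf M) = s * (ks.map fun k => (4 ^ k - 1) * 2 ^ k).prod ∧
      U.index ≤ (ks.map fun k => 2 ^ k.factorization 2 * (2 ^ (k - 1) * (2 ^ k - 1))).prod ∧
      ∀ (s₀ : ℂ) (A : ArtinData G s₀) (V : Subgroup G) (hVM : V ≤ M), N ≤ V →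
        (∀ v (hv : v ∈ V), ((⟨v, hVM hv⟩ : M) : M ⧸ N.subgroupOf M) ∈ U) → ∀ ρ : M →* ℂˣ,
        meromorphicOrderAt (A.Lin M ρ) s₀
          ≤ meromorphicOrderAt (A.Lin V (ρ.comp (Subgroup.inclusion hVM))) s₀ :=
  Pool.Agent.R389.ded_sl2' M N h
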